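import Mathlib
import Pool.Agent.Helper245.Ent
import Pool.Agent.Helper245.MobAP
import Pool.Agent.Helper245.Bump
import Pool.Agent.Helper245.Drift

/-!
# A Moebius disjoint diffeomorphism with positive topological entropy

There are a compact (three-dimensional) manifold and a `C^1` diffeomorphism of it with positive
topological entropy which is Moebius disjoint.
-/

open Filter Topology Manifold
open scoped ContDiff

namespace Pool.Agent.Results.MP_2872f6_an.MobiusDisjointTorus

/-- Moebius disjointness: for every continuous `f : M → ℂ` and every point `x`, the averages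
`(1/N) ∑_{1 ≤ n ≤ N} f (T^n x) μ(n)` tend to zero. -/
def MobiusDisjoint {M : Type*} [TopologicalSpace M] (T : M → M) : Prop :=
  ∀ f : M → ℂ, Continuous f → ∀ x : M,
    Tendsto (fun N : ℕ => (∑ n ∈ Finset.Icc 1 N,
      f (T^[n] x) * ((ArithmeticFunction.moebius n : ℤ) : ℂ)) / (N : ℂ)) atTop (𝓝 0)

open Pool.Agent.Helper245.Sub Pool.Agent.Helper245.Cod Pool.Agent.Helper245.Geo
open Pool.Agent.Helper245.Dif Pool.Agent.Helper245.Orb Pool.Agent.Helper245.Sha
open Pool.Agent.Helper245

/-- the Moebius function with real values -/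
noncomputable def mu (n : ℕ) : ℝ := ((ArithmeticFunction.moebius n : ℤ) : ℝ)

lemma abs_mu (n : ℕ) : |mu n| ≤ 1 := by
  unfold mu
  have h : |ArithmeticFunction.moebius n| ≤ 1 := ArithmeticFunction.abs_moebius_le_one
  exact_mod_cast h

lemma mu_zero : mu 0 = 0 := by unfold mu; simp

lemma mu_ap (q a : ℕ) (hq : 0 < q) : Tendsto (fun N : ℕ =>
    (∑ n ∈ Finset.range N, if n % q = a then mu n else 0) / N) atTop (𝓝 0) :=
  mobius_ap q a hq

lemma mu_mean : Tendsto (fun N : ℕ => (∑ n ∈ Finset.range N, mu n) / N) atTop (𝓝 0) := by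
  have h := mu_ap 1 0 one_pos
  refine h.congr fun N => ?_
  congr 1
  refine Finset.sum_congr rfl fun n _ => ?_
  rw [if_pos (Nat.mod_one n)]

/-- from sums over `range N` to sums over `Icc 1 N` -/
lemma convert_avg {s : ℕ → ℂ}
    (h : Tendsto (fun N : ℕ => (∑ n ∈ Finset.range N, (mu n : ℂ) * s n) / (N : ℂ)) atTop (𝓝 0)) :
    Tendsto (fun N : ℕ => (∑ n ∈ Finset.Icc 1 N,
      s n * ((ArithmeticFunction.moebius n : ℤ) : ℂ)) / (N : ℂ)) atTop (𝓝 0) := by
  have h1 := (h.comp (tendsto_add_atTop_nat 1))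
  have h2 : Tendsto (fun N : ℕ => (((N + 1 : ℕ) : ℂ) / (N : ℂ))) atTop (𝓝 1) := by
    have h3 : Tendsto (fun N : ℕ => (1 : ℂ) + 1 / (N : ℂ)) atTop (𝓝 (1 + 0)) :=
      tendsto_const_nhds.add tendsto_one_div_atTop_nhds_zero_nat
    rw [add_zero] at h3
    refine h3.congr' ?_
    filter_upwards [eventually_gt_atTop 0] with N hN
    have : (N : ℂ) ≠ 0 := by exact_mod_cast hN.ne'
    push_cast
    field_simp
  have h4 := h2.mul h1
  rw [mul_zero] at h4
  refine h4.congr' ?_
  filter_upwards [eventually_gt_atTop 0] with N hN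
  have hN0 : (N : ℂ) ≠ 0 := by exact_mod_cast hN.ne'
  have hN1 : ((N + 1 : ℕ) : ℂ) ≠ 0 := by exact_mod_cast (Nat.succ_ne_zero N)
  have h5 : ∑ n ∈ Finset.range (N + 1), (mu n : ℂ) * s n =
      ∑ n ∈ Finset.Icc 1 N, s n * ((ArithmeticFunction.moebius n : ℤ) : ℂ) := by
    rw [Finset.range_eq_Ico, Finset.sum_eq_sum_Ico_succ_bot (Nat.succ_pos N), mu_zero]
    simp only [Complex.ofReal_zero, zero_mul, zero_add]
    refine Finset.sum_congr ?_ fun n _ => ?_
    · ext n; simp
    · unfold mu
      push_cast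
      ring
  simp only [Function.comp]
  rw [h5]
  field_simp

/-- **Main result.** There are a compact smooth manifold `M` without boundary (of dimension three,
metrizable and connected) and a `C^1` diffeomorphism `T` of `M` whose topological entropy is
positive and which is Moebius disjoint. (In the proof `M` is the three-torus.) -/
theorem result :
    ∃ (E : Type) (_ : NormedAddCommGroup E) (_ : NormedSpace ℝ E) (H : Type)
      (_ : TopologicalSpace H) (I : ModelWithCorners ℝ E H) (M : Type) (_ : MetricSpace M)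
      (_ : ChartedSpace H M) (T : Diffeomorph I I M M 1),
      Module.finrank ℝ E = 3 ∧ I.Boundaryless ∧ IsManifold I ω M ∧ CompactSpace M ∧
      ConnectedSpace M ∧ 0 < Dynamics.coverEntropy T Set.univ ∧ MobiusDisjoint T := by
  -- the subshift
  obtain ⟨X, hXc, hXs, hXu, l, hl, hcard⟩ := exists_subshift mu abs_mu mu_ap
  have hXne : X.Nonempty := by
    have h1 := hcard 0
    have h2 : 0 < (words X (l 0)).ncard := by
      have : (0 : ℝ) < (words X (l 0)).ncard := (Real.exp_pos _).trans_le h1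
      exact_mod_cast this
    obtain ⟨w, x, hx, _⟩ := Set.nonempty_of_ncard_ne_zero h2.ne'
    exact ⟨x, hx⟩
  obtain ⟨b, hb, hb0, hrate⟩ := exists_rate abs_mu hXs hXu
  -- the bump
  have hKc : IsCompact (incl '' (cod '' X)) :=
    ((hXc.isCompact).image continuous_cod).image continuous_incl
  have hKne : (incl '' (cod '' X)).Nonempty := (hXne.image _).image _
  obtain ⟨Φ, hΦ, hΦ0, hΦK, p, hp, c, hc, hΦc⟩ := exists_polynomial_bump _ hKc hKne
  -- the Lipschitz constant
  obtain ⟨Λ, hΛ, hlip⟩ := lip_gg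
  -- the drift
  obtain ⟨q, hq, hq0, hqz, hqd, n₀, hdr⟩ := exists_drift (rate p Λ b) (tendsto_rate p Λ hb0)
  have hq00 : q 0 = 0 := (hqz 0).2 (Or.inl rfl)
  have hq3 : ∀ t, 3 ≤ |t| → q t = 0 := fun t ht => (hqz t).2 (Or.inr ht)
  obtain ⟨F, hF⟩ := exists_diffeo hq hq00 hq3 hqd (contMDiff_phi hΦ)
  set φ : T2 → ℝ := fun z => Φ ((z.1 : ℂ), (z.2 : ℂ)) with hφ
  have hφ0 : ∀ z, 0 ≤ φ z := fun z => hΦ0 _
  have hφc : ∀ z, c * Metric.infDist (incl z) (incl '' (cod '' X)) ^ p ≤ φ z := fun z =>
    hΦc (incl z) (norm_incl z)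
  refine ⟨(EuclideanSpace ℝ (Fin 1) × EuclideanSpace ℝ (Fin 1)) × EuclideanSpace ℝ (Fin 1),
    inferInstance, inferInstance,
    ModelProd (ModelProd (EuclideanSpace ℝ (Fin 1)) (EuclideanSpace ℝ (Fin 1)))
      (EuclideanSpace ℝ (Fin 1)), inferInstance, I3, T3, inferInstance, inferInstance, F,
    by simp, inferInstance, inferInstance, inferInstance, ?_, ?_, ?_⟩
  · -- connectedness
    have h1 : Function.Surjective (Circle.exp : ℝ → Circle) := Circle.exp_surjective
    have : ConnectedSpace Circle := h1.connectedSpace Circle.exp.continuous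
    infer_instance
  · -- entropy
    refine Ent.entropy_pos (X := X) hXs (fun x hx => ?_) hl hcard
    rw [hF]
    have h1 : tau ((1 : Circle)) = 0 := tau_one
    have h2 : FF q φ (cod x, 1) = (cod (sh 1 x), Pc (φ (cod (sh 1 x))) (Pc (q 0) 1)) := by
      have h3 : (FF q φ (cod x, 1)).1 = cod (sh 1 x) := by
        rw [FF_near (p := (cod x, (1 : Circle))) one_ne (by simp [h1]), gg_cod]
      apply Prod.ext
      · exact h3
      · show Pc (φ (FF q φ (cod x, 1)).1) (Pc (q (tau 1)) 1) = _
        rw [h3, h1]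
    have h4 : φ (cod (sh 1 x)) = 0 := hΦK _ ⟨_, ⟨_, hXs x hx 1, rfl⟩, rfl⟩
    rw [h2, h4, hq00, Pc_zero, Pc_zero]
  · -- Moebius disjointness
    intro f hf x₀
    apply convert_avg (s := fun n => f (F^[n] x₀))
    set x : ℕ → T3 := fun n => F^[n] x₀ with hx
    have hxs : ∀ n, x (n + 1) = FF q φ (x n) := by
      intro n
      simp only [hx]
      rw [Function.iterate_succ_apply', hF]
    rcases orbit_cases hq.continuous hq0 (fun t ht => (hqz t).1 ht) hφ0 hxs with ⟨y, hy⟩ | h
    · exact avg_of_tendsto abs_mu mu_mean ((hf.tendsto y).comp hy)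
    · obtain ⟨h0, hlim, hle⟩ := h
      refine avg_shadow (X := X) (b := b) abs_mu hb hb0 hrate (fun ε hε => ?_) hf
      exact shadow hXc hXne hq0 hφ0 hp hc hφc hΛ hlip hb hdr hxs h0 hlim hle hε

end Pool.Agent.Results.MP_2872f6_an.MobiusDisjointTorus
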